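import Pool.Agent.Q110.QS.Lower

/-!
# Number of high-degree points in intersecting subspace families (MP_e960f8_co, Q2)

For a finite field `K` with `q` elements, `h K n k` is the maximum, over all intersecting families
`F` of `k`-dimensional subspaces of `K^n`, of the number of points (`1`-dimensional subspaces)
whose degree in `F` is larger than the Gaussian binomial coefficient `(n-2 choose k-2)_q`.

`result` settles Q2 of the problem: for every `q` there is a constant `M` such that
`h_q(n,k) = [k+1]_q` for all large `k` and all `n ≥ 2k + M`.  In fact `M = 3` works for `q = 2` and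
`M = 2` works for every `q ≥ 3`, and `k ≥ 2` is enough.
-/

open Module Finset
open scoped Classical

namespace Pool.Agent.Results.MP_e960f8_co.HighDegreePoints

universe u

/-- The Gaussian binomial coefficient `(a choose b)_q`, `q = |K|`: the number of `b`-dimensional
subspaces of the `a`-dimensional space `K^a`. -/
noncomputable def gaussian (K : Type u) [Field K] (a b : ℕ) : ℕ :=
  Nat.card {W : Submodule K (Fin a → K) // finrank K W = b}

/-- `[m]_q = 1 + q + ⋯ + q^(m-1) = (q^m - 1)/(q - 1)`. -/
def bracket (q m : ℕ) : ℕ := ∑ i ∈ range m, q ^ i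

/-- Intersecting families of `k`-dimensional subspaces of `K^n`. -/
def IsIntersecting (K : Type u) [Field K] (n k : ℕ) (F : Set (Submodule K (Fin n → K))) : Prop :=
  (∀ W ∈ F, finrank K W = k) ∧ ∀ W ∈ F, ∀ W' ∈ F, W ⊓ W' ≠ ⊥

/-- The degree of a subspace `P` in the family `F`: the number of members containing `P`. -/
noncomputable def degree {K : Type u} [Field K] {n : ℕ} (F : Set (Submodule K (Fin n → K)))
    (P : Submodule K (Fin n → K)) : ℕ :=
  {W | W ∈ F ∧ P ≤ W}.ncard

/-- The number of high points of `F`: points `P` whose degree is more than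
`(n-2 choose k-2)_q`. -/
noncomputable def highCount {K : Type u} [Field K] {n : ℕ} (k : ℕ)
    (F : Set (Submodule K (Fin n → K))) : ℕ :=
  {P : Submodule K (Fin n → K) | finrank K P = 1 ∧ gaussian K (n - 2) (k - 2) < degree F P}.ncard

/-- All numbers of high points of intersecting families of `k`-subspaces of `K^n`. -/
def highCounts (K : Type u) [Field K] (n k : ℕ) : Set ℕ :=
  {m | ∃ F : Set (Submodule K (Fin n → K)), IsIntersecting K n k F ∧ m = highCount k F}

/-- `h_q(n,k)` for `q = |K|`: the maximum number of high points of an intersecting family. -/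
noncomputable def h (K : Type u) [Field K] (n k : ℕ) : ℕ := sSup (highCounts K n k)

lemma degree_eq {K : Type u} [Field K] [Finite K] {n : ℕ} (F : Finset (Submodule K (Fin n → K)))
    (P : Submodule K (Fin n → K)) : degree (F : Set (Submodule K (Fin n → K))) P =
      Q110.QS.deg F P := by
  unfold degree Q110.QS.deg
  rw [← Set.ncard_coe_finset]
  congr 1
  ext W
  simp

/-- The value of the maximum. -/
theorem isGreatest (K : Type u) [Field K] [Finite K] {k n M : ℕ} (hk : 2 ≤ k)
    (hn : 2 * k + M ≤ n)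
    (hM : Nat.card K ^ 2 + Nat.card K + 1 ≤ (Nat.card K - 1) * Nat.card K ^ M) :
    IsGreatest (highCounts K n k) (bracket (Nat.card K) (k + 1)) := by
  have hfr : finrank K (Fin n → K) = n := Module.finrank_fin_fun K
  have hub : ∀ F : Finset (Submodule K (Fin n → K)), (∀ W ∈ F, finrank K W = k) →
      (∀ W ∈ F, ∀ W' ∈ F, W ⊓ W' ≠ ⊥) →
      highCount k (F : Set (Submodule K (Fin n → K))) ≤ bracket (Nat.card K) (k + 1) := by
    intro F hF hI
    obtain ⟨T, hT, hall⟩ := Q110.QS.high_in hk (by rw [hfr]; exact hn) hM hF hI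
    have h1 : highCount k (F : Set (Submodule K (Fin n → K))) ≤ (Q110.QS.pts T).card := by
      unfold highCount
      rw [← Set.ncard_coe_finset]
      refine Set.ncard_le_ncard ?_ (Finset.finite_toSet _)
      rintro P ⟨hP1, hP2⟩
      rw [Finset.mem_coe, Q110.QS.mem_pts]
      refine ⟨hP1, hall P hP1 ?_⟩
      rw [degree_eq] at hP2
      rw [hfr]
      exact hP2
    rw [Q110.QS.card_pts] at h1
    exact h1.trans (Q110.QS.br_mono hT)
  refine ⟨?_, ?_⟩
  · obtain ⟨F, hF, hI, E, hE, hdeg⟩ := Q110.QS.hm_exists (K := K) (V := Fin n → K) hk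
      (by rw [hfr]; omega)
    refine ⟨F, ⟨by simpa using hF, by simpa using hI⟩, le_antisymm ?_ (hub F hF hI)⟩
    have h1 : (Q110.QS.pts E).card ≤ highCount k (F : Set (Submodule K (Fin n → K))) := by
      unfold highCount
      rw [← Set.ncard_coe_finset]
      refine Set.ncard_le_ncard ?_ (Set.toFinite _)
      intro P hP
      rw [Finset.mem_coe, Q110.QS.mem_pts] at hP
      refine ⟨hP.1, ?_⟩
      rw [degree_eq]
      have := hdeg P hP.1 hP.2
      rw [hfr] at this
      exact this
    rw [Q110.QS.card_pts, hE] at h1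
    exact h1
  · rintro m ⟨F, ⟨hF, hI⟩, rfl⟩
    have hco : ((F.toFinset : Finset _) : Set (Submodule K (Fin n → K))) = F := by simp
    have := hub F.toFinset (by simpa using hF) (by simpa using hI)
    rwa [hco] at this

lemma numeric {q : ℕ} (hq : 2 ≤ q) : q ^ 2 + q + 1 ≤ (q - 1) * q ^ 3 := by
  obtain ⟨r, rfl⟩ : ∃ r, q = r + 2 := ⟨q - 2, by omega⟩
  rw [show r + 2 - 1 = r + 1 by omega]
  nlinarith [Nat.zero_le r, Nat.zero_le (r ^ 2), Nat.zero_le (r ^ 3), Nat.zero_le (r ^ 4)]

lemma numeric' {q : ℕ} (hq : 3 ≤ q) : q ^ 2 + q + 1 ≤ (q - 1) * q ^ 2 := by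
  obtain ⟨r, rfl⟩ : ∃ r, q = r + 3 := ⟨q - 3, by omega⟩
  rw [show r + 3 - 1 = r + 2 by omega]
  nlinarith [Nat.zero_le r, Nat.zero_le (r ^ 2), Nat.zero_le (r ^ 3)]

/-- **Q2 holds.**  For every finite field `K` with `q` elements there is a constant `M` such that,
for all `k ≥ 2` and all `n ≥ 2k + M`, the maximum number `h_q(n,k)` of high points exists and equals
`[k+1]_q`.  One may take `M = 3` for every `q`, and `M = 2` if `q ≥ 3`. -/
theorem result (K : Type u) [Field K] [Finite K] :
    ∃ M : ℕ, M ≤ 3 ∧ (3 ≤ Nat.card K → M ≤ 2) ∧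
      ∀ k ≥ 2, ∀ n ≥ 2 * k + M,
        IsGreatest (highCounts K n k) (h K n k) ∧
          h K n k = bracket (Nat.card K) (k + 1) := by
  have hq : 2 ≤ Nat.card K := Q110.QS.two_le_card K
  have key : ∀ M : ℕ, Nat.card K ^ 2 + Nat.card K + 1 ≤ (Nat.card K - 1) * Nat.card K ^ M →
      ∀ k ≥ 2, ∀ n ≥ 2 * k + M,
        IsGreatest (highCounts K n k) (h K n k) ∧
          h K n k = bracket (Nat.card K) (k + 1) := by
    intro M hM k hk n hn
    have hg := isGreatest K hk hn hM
    have he : h K n k = bracket (Nat.card K) (k + 1) := hg.csSup_eq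
    rw [he]
    exact ⟨hg, rfl⟩
  by_cases h3 : 3 ≤ Nat.card K
  · exact ⟨2, by omega, fun _ => le_rfl, key 2 (numeric' h3)⟩
  · exact ⟨3, le_rfl, fun h => absurd h h3, key 3 (numeric hq)⟩

end Pool.Agent.Results.MP_e960f8_co.HighDegreePoints
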